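import Mathlib
import Pool.Agent.X129.GaussMix

/-!
Dimension-free comparison of the KL and chi-squared divergences with the squared Hellinger distance
for Gaussian mixtures with mixing distributions supported in a ball.
-/

set_option autoImplicit false
set_option linter.unusedVariables false

noncomputable section

namespace Pool.Agent.Results.MP_ba1a3e_pr.DimensionFree

open MeasureTheory ProbabilityTheory
open scoped RealInnerProductSpace ENNReal Topology
open Pool.Agent.X129.GaussMix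

/-- The density of the Gaussian mixture `π * N(0, I_d)`. -/
def mixDensity {d : ℕ} (π : Measure (EuclideanSpace ℝ (Fin d))) (x : EuclideanSpace ℝ (Fin d)) : ℝ :=
  ∫ z, (2 * Real.pi) ^ (-(d : ℝ) / 2) * Real.exp (-‖x - z‖ ^ 2 / 2) ∂π

/-- Kullback-Leibler divergence of two densities. -/
def KL {d : ℕ} (f g : EuclideanSpace ℝ (Fin d) → ℝ) : ℝ := ∫ x, f x * Real.log (f x / g x)

/-- Squared Hellinger distance of two densities. -/
def hellingerSq {d : ℕ} (f g : EuclideanSpace ℝ (Fin d) → ℝ) : ℝ :=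
  ∫ x, (Real.sqrt (f x) - Real.sqrt (g x)) ^ 2

/-- Chi-squared divergence of two densities. -/
def chiSq {d : ℕ} (f g : EuclideanSpace ℝ (Fin d) → ℝ) : ℝ := ∫ x, (f x - g x) ^ 2 / g x

section Lfun

variable {I : Type} [Fintype I] {π : Measure (EuclideanSpace ℝ I)} [IsProbabilityMeasure π] {M : ℝ}

/-- likelihood ratio with respect to the standard Gaussian -/
def Lf (π : Measure (EuclideanSpace ℝ I)) (x : EuclideanSpace ℝ I) : ℝ :=
  ∫ z, Real.exp (⟪x, z⟫ - ‖z‖ ^ 2 / 2) ∂π

omit [IsProbabilityMeasure π] in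
lemma exp_meas (x : EuclideanSpace ℝ I) :
    AEStronglyMeasurable (fun z => Real.exp (⟪x, z⟫ - ‖z‖ ^ 2 / 2)) π := by
  apply Continuous.aestronglyMeasurable; fun_prop

lemma inner_bd {x z : EuclideanSpace ℝ I} (hz : ‖z‖ ≤ M) : |⟪x, z⟫| ≤ M * ‖x‖ := by
  refine (abs_real_inner_le_norm x z).trans ?_
  rw [mul_comm]
  exact mul_le_mul_of_nonneg_right hz (norm_nonneg _)

lemma exp_int (hπ : ∀ᵐ z ∂π, ‖z‖ ≤ M) (x : EuclideanSpace ℝ I) :
    Integrable (fun z => Real.exp (⟪x, z⟫ - ‖z‖ ^ 2 / 2)) π := by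
  refine Integrable.of_bound (exp_meas x) (Real.exp (M * ‖x‖)) ?_
  filter_upwards [hπ] with z hz
  rw [Real.norm_eq_abs, abs_of_nonneg (Real.exp_pos _).le, Real.exp_le_exp]
  have := inner_bd (x := x) hz
  have := le_abs_self ⟪x, z⟫
  nlinarith [sq_nonneg ‖z‖]

lemma M_nonneg (hπ : ∀ᵐ z ∂π, ‖z‖ ≤ M) : 0 ≤ M := by
  obtain ⟨z, hz⟩ := hπ.exists
  exact (norm_nonneg z).trans hz

lemma Lf_pos (hπ : ∀ᵐ z ∂π, ‖z‖ ≤ M) (x : EuclideanSpace ℝ I) : 0 < Lf π x := by
  unfold Lf
  have h1 : ∫ _z, Real.exp (-(M * ‖x‖) - M ^ 2 / 2) ∂π ≤ ∫ z, Real.exp (⟪x, z⟫ - ‖z‖ ^ 2 / 2) ∂π := by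
    apply integral_mono_ae (integrable_const _) (exp_int hπ x)
    filter_upwards [hπ] with z hz
    rw [Real.exp_le_exp]
    have h2 := inner_bd (x := x) hz
    have h3 := neg_abs_le ⟪x, z⟫
    have h4 : ‖z‖ ^ 2 ≤ M ^ 2 := pow_le_pow_left₀ (norm_nonneg _) hz 2
    linarith
  rw [integral_const, probReal_univ, one_smul] at h1
  exact (Real.exp_pos _).trans_le h1

lemma Lf_ratio (hπ : ∀ᵐ z ∂π, ‖z‖ ≤ M) (x y : EuclideanSpace ℝ I) :
    Lf π x ≤ Real.exp (M * ‖x - y‖) * Lf π y := by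
  unfold Lf
  rw [← integral_const_mul]
  apply integral_mono_ae (exp_int hπ x) ((exp_int hπ y).const_mul _)
  filter_upwards [hπ] with z hz
  rw [← Real.exp_add, Real.exp_le_exp]
  have h2 := inner_bd (x := x - y) hz
  have h3 := le_abs_self ⟪x - y, z⟫
  rw [inner_sub_left] at h2 h3
  linarith

/-- derivative of the integrand -/
def dL (x z : EuclideanSpace ℝ I) : EuclideanSpace ℝ I →L[ℝ] ℝ :=
  Real.exp (⟪x, z⟫ - ‖z‖ ^ 2 / 2) • innerSL ℝ z

lemma dL_cont : Continuous (fun p : EuclideanSpace ℝ I × EuclideanSpace ℝ I => dL p.1 p.2) := by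
  unfold dL
  fun_prop

lemma dL_bd {x z : EuclideanSpace ℝ I} (hz : ‖z‖ ≤ M) : ‖dL x z‖ ≤ Real.exp (M * ‖x‖) * M := by
  unfold dL
  rw [norm_smul, innerSL_apply_norm, Real.norm_eq_abs, abs_of_nonneg (Real.exp_pos _).le]
  refine mul_le_mul ?_ hz (norm_nonneg _) (Real.exp_pos _).le
  rw [Real.exp_le_exp]
  have := inner_bd (x := x) hz
  have := le_abs_self ⟪x, z⟫
  nlinarith [sq_nonneg ‖z‖]

lemma Lf_hasFDeriv (hπ : ∀ᵐ z ∂π, ‖z‖ ≤ M) (x : EuclideanSpace ℝ I) :
    HasFDerivAt (Lf π) (∫ z, dL x z ∂π) x := by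
  have hM := M_nonneg hπ
  unfold Lf
  apply hasFDerivAt_integral_of_dominated_of_fderiv_le (s := Metric.ball x 1)
    (F := fun x z => Real.exp (⟪x, z⟫ - ‖z‖ ^ 2 / 2)) (F' := dL)
    (bound := fun _ => Real.exp (M * (‖x‖ + 1)) * M)
  · exact Metric.ball_mem_nhds x one_pos
  · exact Filter.Eventually.of_forall fun y => exp_meas y
  · exact exp_int hπ x
  · apply Continuous.aestronglyMeasurable
    exact dL_cont.comp (continuous_const.prodMk continuous_id)
  · filter_upwards [hπ] with z hz y hy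
    refine (dL_bd hz).trans ?_
    refine mul_le_mul_of_nonneg_right ?_ hM
    rw [Real.exp_le_exp]
    refine mul_le_mul_of_nonneg_left ?_ hM
    have h1 : ‖y - x‖ < 1 := by rwa [mem_ball_iff_norm] at hy
    have h2 : ‖y‖ ≤ ‖x‖ + ‖y - x‖ := by
      have := norm_add_le x (y - x)
      rwa [add_sub_cancel] at this
    linarith
  · exact integrable_const _
  · refine Filter.Eventually.of_forall fun z y _ => ?_
    have h1 : HasFDerivAt (fun y : EuclideanSpace ℝ I => ⟪y, z⟫ - ‖z‖ ^ 2 / 2) (innerSL ℝ z) y := by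
      have h2 : HasFDerivAt (fun y : EuclideanSpace ℝ I => innerSL ℝ z y) (innerSL ℝ z) y :=
        (innerSL ℝ z).hasFDerivAt
      have h3 : (fun y : EuclideanSpace ℝ I => ⟪y, z⟫ - ‖z‖ ^ 2 / 2) =
          fun y => innerSL ℝ z y - ‖z‖ ^ 2 / 2 := by
        funext y; rw [innerSL_apply_apply, real_inner_comm]
      rw [h3]
      exact h2.sub_const _
    exact h1.exp

lemma Lf_contDiff (hπ : ∀ᵐ z ∂π, ‖z‖ ≤ M) : ContDiff ℝ 1 (Lf π) := by
  have hM := M_nonneg hπ
  rw [contDiff_one_iff_fderiv]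
  refine ⟨fun x => (Lf_hasFDeriv hπ x).differentiableAt, ?_⟩
  have h1 : fderiv ℝ (Lf π) = fun x => ∫ z, dL x z ∂π := by
    funext x; exact (Lf_hasFDeriv hπ x).fderiv
  rw [h1, continuous_iff_continuousAt]
  intro x
  apply tendsto_integral_filter_of_dominated_convergence (fun _ => Real.exp (M * (‖x‖ + 1)) * M)
  · exact Filter.Eventually.of_forall fun y =>
      (dL_cont.comp (continuous_const.prodMk continuous_id)).aestronglyMeasurable
  · filter_upwards [Metric.ball_mem_nhds x one_pos] with y hy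
    filter_upwards [hπ] with z hz
    refine (dL_bd hz).trans ?_
    refine mul_le_mul_of_nonneg_right ?_ hM
    rw [Real.exp_le_exp]
    refine mul_le_mul_of_nonneg_left ?_ hM
    have h1 : ‖y - x‖ < 1 := by rwa [mem_ball_iff_norm] at hy
    have h2 : ‖y‖ ≤ ‖x‖ + ‖y - x‖ := by
      have := norm_add_le x (y - x)
      rwa [add_sub_cancel] at this
    linarith
  · exact integrable_const _
  · refine Filter.Eventually.of_forall fun z => ?_
    exact (dL_cont.comp (continuous_id.prodMk continuous_const)).continuousAt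

/-- `L² ≤ ∫ exp(2⟪x,z⟫)` -/
lemma Lf_sq (hπ : ∀ᵐ z ∂π, ‖z‖ ≤ M) (x : EuclideanSpace ℝ I) :
    Lf π x ^ 2 ≤ ∫ z, Real.exp (2 * ⟪x, z⟫) ∂π := by
  have i1 := exp_int hπ x
  have i2 : Integrable (fun z => Real.exp (2 * ⟪x, z⟫)) π := by
    refine Integrable.of_bound (by apply Continuous.aestronglyMeasurable; fun_prop)
      (Real.exp (2 * (M * ‖x‖))) ?_
    filter_upwards [hπ] with z hz
    rw [Real.norm_eq_abs, abs_of_nonneg (Real.exp_pos _).le, Real.exp_le_exp]
    have := inner_bd (x := x) hz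
    have := le_abs_self ⟪x, z⟫
    linarith
  have h1 : 2 * Lf π x * Lf π x - Lf π x ^ 2 ≤ ∫ z, Real.exp (2 * ⟪x, z⟫) ∂π := by
    have h2 : ∫ z, (2 * Lf π x * Real.exp (⟪x, z⟫ - ‖z‖ ^ 2 / 2) - Lf π x ^ 2) ∂π ≤
        ∫ z, Real.exp (2 * ⟪x, z⟫) ∂π := by
      apply integral_mono ((i1.const_mul _).sub (integrable_const _)) i2
      intro z
      have h3 : Real.exp (⟪x, z⟫ - ‖z‖ ^ 2 / 2) ^ 2 ≤ Real.exp (2 * ⟪x, z⟫) := by
        rw [← Real.exp_nat_mul, Real.exp_le_exp]
        push_cast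
        nlinarith [sq_nonneg ‖z‖]
      show 2 * Lf π x * Real.exp (⟪x, z⟫ - ‖z‖ ^ 2 / 2) - Lf π x ^ 2 ≤ Real.exp (2 * ⟪x, z⟫)
      nlinarith [sq_nonneg (Real.exp (⟪x, z⟫ - ‖z‖ ^ 2 / 2) - Lf π x)]
    rw [integral_sub (i1.const_mul _) (integrable_const _), integral_const_mul, integral_const,
      probReal_univ, one_smul] at h2
    exact h2
  nlinarith

lemma id_int (hπ : ∀ᵐ z ∂π, ‖z‖ ≤ M) : Integrable (fun z : EuclideanSpace ℝ I => z) π :=
  Integrable.of_bound continuous_id.aestronglyMeasurable M hπ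

/-- `L ≥ exp(⟪x,m⟫ - M²/2)` with `m` the mean -/
lemma Lf_ge (hπ : ∀ᵐ z ∂π, ‖z‖ ≤ M) (x : EuclideanSpace ℝ I) :
    Real.exp (⟪x, ∫ z, z ∂π⟫ - M ^ 2 / 2) ≤ Lf π x := by
  have hz := id_int hπ
  have i1 := exp_int hπ x
  obtain ⟨A, hA⟩ : ∃ A, A = ⟪x, ∫ z, z ∂π⟫ - M ^ 2 / 2 := ⟨_, rfl⟩
  have i3 : Integrable (fun z => ⟪x, z⟫) π := hz.const_inner x
  have hint : ∫ z, ⟪x, z⟫ ∂π = ⟪x, ∫ z, z ∂π⟫ := integral_inner hz x
  have h1 : ∫ z, (Real.exp A * (1 + (⟪x, z⟫ - M ^ 2 / 2 - A))) ∂π ≤ Lf π x := by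
    unfold Lf
    apply integral_mono_ae _ i1
    · filter_upwards [hπ] with z hz
      have h2 := Real.add_one_le_exp (⟪x, z⟫ - ‖z‖ ^ 2 / 2 - A)
      have h3 : Real.exp (⟪x, z⟫ - ‖z‖ ^ 2 / 2) =
          Real.exp A * Real.exp (⟪x, z⟫ - ‖z‖ ^ 2 / 2 - A) := by
        rw [← Real.exp_add]; congr 1; ring
      have h4 : ‖z‖ ^ 2 ≤ M ^ 2 := pow_le_pow_left₀ (norm_nonneg _) hz 2
      rw [h3]
      exact mul_le_mul_of_nonneg_left (by linarith) (Real.exp_pos _).le
    · have i4 : Integrable (fun z => 1 + (⟪x, z⟫ - M ^ 2 / 2 - A)) π :=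
        (integrable_const _).add ((i3.sub (integrable_const _)).sub (integrable_const _))
      exact i4.const_mul _
  have h2 : ∫ z, (Real.exp A * (1 + (⟪x, z⟫ - M ^ 2 / 2 - A))) ∂π = Real.exp A := by
    rw [integral_const_mul]
    have i5 : Integrable (fun z => ⟪x, z⟫ - M ^ 2 / 2) π := i3.sub (integrable_const _)
    have i6 : Integrable (fun z => ⟪x, z⟫ - M ^ 2 / 2 - A) π := i5.sub (integrable_const _)
    rw [integral_add (integrable_const _) i6, integral_sub i5 (integrable_const _),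
      integral_sub i3 (integrable_const _), hint]
    simp only [integral_const, probReal_univ, one_smul]
    rw [hA]; ring
  rw [h2, hA] at h1
  exact h1

end Lfun

section ratio

variable {I : Type} [Fintype I] {π η : Measure (EuclideanSpace ℝ I)} [IsProbabilityMeasure π]
  [IsProbabilityMeasure η] {M : ℝ}

/-- log likelihood ratio -/
def lr (π η : Measure (EuclideanSpace ℝ I)) (x : EuclideanSpace ℝ I) : ℝ :=
  Real.log (Lf π x) - Real.log (Lf η x)

lemma logL_contDiff (hπ : ∀ᵐ z ∂π, ‖z‖ ≤ M) : ContDiff ℝ 1 (fun x => Real.log (Lf π x)) :=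
  (Lf_contDiff hπ).log (fun x => (Lf_pos hπ x).ne')

lemma logL_le (hπ : ∀ᵐ z ∂π, ‖z‖ ≤ M) (x y : EuclideanSpace ℝ I) :
    Real.log (Lf π x) ≤ Real.log (Lf π y) + M * ‖x - y‖ := by
  have h1 := Lf_ratio hπ x y
  have hx := Lf_pos hπ x
  have hy := Lf_pos hπ y
  have h2 := Real.log_le_log hx h1
  rw [Real.log_mul (Real.exp_pos _).ne' hy.ne', Real.log_exp] at h2
  linarith

lemma logL_fderiv (hπ : ∀ᵐ z ∂π, ‖z‖ ≤ M) (x : EuclideanSpace ℝ I) :
    ‖fderiv ℝ (fun x => Real.log (Lf π x)) x‖ ≤ M := by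
  have hM := M_nonneg hπ
  have h1 : LipschitzWith (Real.toNNReal M) (fun x => Real.log (Lf π x)) := by
    apply LipschitzWith.of_dist_le_mul
    intro y z
    rw [Real.coe_toNNReal M hM, Real.dist_eq, dist_eq_norm, abs_le]
    have h2 := logL_le hπ y z
    have h3 := logL_le hπ z y
    rw [norm_sub_rev z y] at h3
    constructor <;> linarith
  have h2 := norm_fderiv_le_of_lipschitz ℝ h1 (x₀ := x)
  rwa [Real.coe_toNNReal M hM] at h2

lemma lr_contDiff (hπ : ∀ᵐ z ∂π, ‖z‖ ≤ M) (hη : ∀ᵐ z ∂η, ‖z‖ ≤ M) : ContDiff ℝ 1 (lr π η) :=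
  (logL_contDiff hπ).sub (logL_contDiff hη)

lemma lr_fderiv (hπ : ∀ᵐ z ∂π, ‖z‖ ≤ M) (hη : ∀ᵐ z ∂η, ‖z‖ ≤ M) (x : EuclideanSpace ℝ I) :
    ‖fderiv ℝ (lr π η) x‖ ≤ 2 * M := by
  have h1 : fderiv ℝ (lr π η) x = fderiv ℝ (fun x => Real.log (Lf π x)) x -
      fderiv ℝ (fun x => Real.log (Lf η x)) x := by
    apply fderiv_fun_sub
    · exact (logL_contDiff hπ).differentiable (by norm_num) x
    · exact (logL_contDiff hη).differentiable (by norm_num) x
  rw [h1]
  refine (norm_sub_le _ _).trans ?_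
  have := logL_fderiv hπ x
  have := logL_fderiv hη x
  linarith

lemma exp_lr (hπ : ∀ᵐ z ∂π, ‖z‖ ≤ M) (hη : ∀ᵐ z ∂η, ‖z‖ ≤ M) (x : EuclideanSpace ℝ I) :
    Real.exp (lr π η x) = Lf π x / Lf η x := by
  unfold lr
  rw [Real.exp_sub, Real.exp_log (Lf_pos hπ x), Real.exp_log (Lf_pos hη x)]

omit [IsProbabilityMeasure π] [IsProbabilityMeasure η] in
lemma lr_neg (x : EuclideanSpace ℝ I) : lr η π x = -lr π η x := by unfold lr; ring

lemma mom (hπ : ∀ᵐ z ∂π, ‖z‖ ≤ M) (hη : ∀ᵐ z ∂η, ‖z‖ ≤ M) {w : EuclideanSpace ℝ I}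
    (hw : ‖w‖ ≤ M) :
    ∫⁻ x, ENNReal.ofReal (Real.exp (2 * lr π η (x + w))) ∂(stdGaussian (EuclideanSpace ℝ I)) ≤
      ENNReal.ofReal (Real.exp (13 * M ^ 2)) := by
  have hM := M_nonneg hπ
  obtain ⟨m, hm⟩ : ∃ m, m = ∫ z, z ∂η := ⟨_, rfl⟩
  have hmn : ‖m‖ ≤ M := by
    rw [hm]
    have := norm_integral_le_of_norm_le_const hη
    simpa using this
  have hpt : ∀ x, ENNReal.ofReal (Real.exp (2 * lr π η x)) ≤
      ∫⁻ z, ENNReal.ofReal (Real.exp (2 * ⟪x, z - m⟫ + M ^ 2)) ∂π := by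
    intro x
    have h1 : Real.exp (2 * lr π η x) = (Lf π x / Lf η x) ^ 2 := by
      rw [← exp_lr hπ hη, ← Real.exp_nat_mul]; norm_num
    have h2 := Lf_sq hπ x
    have h3 := Lf_ge hη x
    rw [← hm] at h3
    have h4 := Lf_pos hη x
    have i2 : Integrable (fun z => Real.exp (2 * ⟪x, z⟫)) π := by
      refine Integrable.of_bound (by apply Continuous.aestronglyMeasurable; fun_prop)
        (Real.exp (2 * (M * ‖x‖))) ?_
      filter_upwards [hπ] with z hz
      rw [Real.norm_eq_abs, abs_of_nonneg (Real.exp_pos _).le, Real.exp_le_exp]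
      have := inner_bd (x := x) hz
      have := le_abs_self ⟪x, z⟫
      linarith
    have h5 : (Lf π x / Lf η x) ^ 2 ≤ ∫ z, Real.exp (2 * ⟪x, z - m⟫ + M ^ 2) ∂π := by
      have e : ∀ z, Real.exp (2 * ⟪x, z - m⟫ + M ^ 2) =
          Real.exp (-2 * ⟪x, m⟫ + M ^ 2) * Real.exp (2 * ⟪x, z⟫) := by
        intro z
        rw [← Real.exp_add, inner_sub_right]; congr 1; ring
      simp_rw [e]
      rw [integral_const_mul, div_pow]
      have h6 : Real.exp (⟪x, m⟫ - M ^ 2 / 2) ^ 2 ≤ Lf η x ^ 2 :=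
        pow_le_pow_left₀ (Real.exp_pos _).le h3 2
      have h7 : Real.exp (⟪x, m⟫ - M ^ 2 / 2) ^ 2 * Real.exp (-2 * ⟪x, m⟫ + M ^ 2) = 1 := by
        rw [← Real.exp_nat_mul, ← Real.exp_add]
        have : (((2 : ℕ) : ℝ) * (⟪x, m⟫ - M ^ 2 / 2) + (-2 * ⟪x, m⟫ + M ^ 2)) = 0 := by
          push_cast; ring
        rw [this, Real.exp_zero]
      rw [div_le_iff₀ (by positivity)]
      obtain ⟨J, hJ⟩ : ∃ J, J = ∫ z, Real.exp (2 * ⟪x, z⟫) ∂π := ⟨_, rfl⟩
      rw [← hJ] at h2 ⊢
      have hJ0 : 0 ≤ J := by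
        rw [hJ]; exact integral_nonneg fun z => (Real.exp_pos _).le
      calc Lf π x ^ 2 ≤ J := h2
        _ = J * (Real.exp (⟪x, m⟫ - M ^ 2 / 2) ^ 2 * Real.exp (-2 * ⟪x, m⟫ + M ^ 2)) := by
            rw [h7, mul_one]
        _ ≤ J * (Lf η x ^ 2 * Real.exp (-2 * ⟪x, m⟫ + M ^ 2)) := by
            apply mul_le_mul_of_nonneg_left _ hJ0
            exact mul_le_mul_of_nonneg_right h6 (Real.exp_pos _).le
        _ = Real.exp (-2 * ⟪x, m⟫ + M ^ 2) * J * Lf η x ^ 2 := by ring
    rw [h1]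
    refine (ENNReal.ofReal_le_ofReal h5).trans ?_
    rw [ofReal_integral_eq_lintegral_ofReal _ (Filter.Eventually.of_forall fun z =>
      (Real.exp_pos _).le)]
    have e : (fun z => Real.exp (2 * ⟪x, z - m⟫ + M ^ 2)) =
          fun z => Real.exp (-2 * ⟪x, m⟫ + M ^ 2) * Real.exp (2 * ⟪x, z⟫) := by
        funext z
        rw [← Real.exp_add, inner_sub_right]; congr 1; ring
    rw [e]
    exact i2.const_mul _
  calc ∫⁻ x, ENNReal.ofReal (Real.exp (2 * lr π η (x + w))) ∂(stdGaussian (EuclideanSpace ℝ I))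
      ≤ ∫⁻ x, (∫⁻ z, ENNReal.ofReal (Real.exp (2 * ⟪x + w, z - m⟫ + M ^ 2)) ∂π)
          ∂(stdGaussian (EuclideanSpace ℝ I)) := lintegral_mono fun x => hpt (x + w)
    _ = ∫⁻ z, (∫⁻ x, ENNReal.ofReal (Real.exp (2 * ⟪x + w, z - m⟫ + M ^ 2))
          ∂(stdGaussian (EuclideanSpace ℝ I))) ∂π := by
        rw [lintegral_lintegral_swap]
        apply Measurable.aemeasurable
        apply Measurable.ennreal_ofReal
        apply Continuous.measurable
        show Continuous (fun p : EuclideanSpace ℝ I × EuclideanSpace ℝ I =>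
          Real.exp (2 * ⟪p.1 + w, p.2 - m⟫ + M ^ 2))
        fun_prop
    _ ≤ ∫⁻ _z, ENNReal.ofReal (Real.exp (13 * M ^ 2)) ∂π := by
        apply lintegral_mono_ae
        filter_upwards [hπ] with z hz
        have e : ∀ x, ENNReal.ofReal (Real.exp (2 * ⟪x + w, z - m⟫ + M ^ 2)) =
            ENNReal.ofReal (Real.exp (2 * ⟪w, z - m⟫ + M ^ 2)) *
            ENNReal.ofReal (Real.exp ⟪x, (2 : ℝ) • (z - m)⟫) := by
          intro x
          rw [← ENNReal.ofReal_mul (Real.exp_pos _).le, ← Real.exp_add, inner_smul_right,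
            inner_add_left]
          congr 2; ring
        simp_rw [e]
        rw [lintegral_const_mul _ (by
          apply Measurable.ennreal_ofReal; apply Continuous.measurable; fun_prop),
          Pool.Agent.X129.GaussPath.lmgf_inner, ← ENNReal.ofReal_mul (Real.exp_pos _).le,
          ← Real.exp_add]
        apply ENNReal.ofReal_le_ofReal
        rw [Real.exp_le_exp, norm_smul, Real.norm_eq_abs, abs_of_pos (by norm_num : (0:ℝ) < 2)]
        have h1 : ‖z - m‖ ≤ 2 * M := (norm_sub_le _ _).trans (by linarith)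
        have h2 : ⟪w, z - m⟫ ≤ M * (2 * M) := by
          refine (real_inner_le_norm _ _).trans ?_
          exact mul_le_mul hw h1 (norm_nonneg _) hM
        have h3 : ‖z - m‖ ^ 2 ≤ (2 * M) ^ 2 := pow_le_pow_left₀ (norm_nonneg _) h1 2
        nlinarith
    _ = ENNReal.ofReal (Real.exp (13 * M ^ 2)) := by simp

/-- the constant -/
def Cst (M : ℝ) : ℝ := CC M (2 * Real.exp (13 * M ^ 2))

lemma Cst_nonneg (M : ℝ) : 0 ≤ Cst M := by
  unfold Cst CC
  have := K_nonneg M
  positivity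

lemma comp_at (hπ : ∀ᵐ z ∂π, ‖z‖ ≤ M) (hη : ∀ᵐ z ∂η, ‖z‖ ≤ M) {w : EuclideanSpace ℝ I}
    (hw : ‖w‖ ≤ M) :
    ∫⁻ x, ENNReal.ofReal ((Real.exp (lr π η (x + w)) - 1) ^ 2)
        ∂(stdGaussian (EuclideanSpace ℝ I)) ≤
      ENNReal.ofReal (Cst M) * ∫⁻ x, ENNReal.ofReal (hp (lr π η (x + w)))
        ∂(stdGaussian (EuclideanSpace ℝ I)) := by
  have hM := M_nonneg hπ
  obtain ⟨r, hr⟩ : ∃ r : EuclideanSpace ℝ I → ℝ, r = fun x => lr π η (x + w) := ⟨_, rfl⟩
  have hrC : ContDiff ℝ 1 r := by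
    rw [hr]; exact (lr_contDiff hπ hη).comp (contDiff_id.add contDiff_const)
  have hrD : ∀ x, ‖fderiv ℝ r x‖ ≤ 2 * M := by
    intro x
    rw [hr, fderiv_comp_add_right]
    exact lr_fderiv hπ hη _
  have hrc := hrC.continuous
  have hmom : ∫⁻ x, ENNReal.ofReal (Real.exp (2 * |r x|)) ∂(stdGaussian (EuclideanSpace ℝ I)) ≤
      ENNReal.ofReal (2 * Real.exp (13 * M ^ 2)) := by
    have h1 : ∀ x, ENNReal.ofReal (Real.exp (2 * |r x|)) ≤
        ENNReal.ofReal (Real.exp (2 * lr π η (x + w))) +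
        ENNReal.ofReal (Real.exp (2 * lr η π (x + w))) := by
      intro x
      rw [← ENNReal.ofReal_add (Real.exp_pos _).le (Real.exp_pos _).le]
      apply ENNReal.ofReal_le_ofReal
      rw [hr, lr_neg (π := π) (η := η)]
      simp only
      rcases abs_cases (lr π η (x + w)) with ⟨h, _⟩ | ⟨h, _⟩
      · rw [h]; linarith [Real.exp_pos (2 * -lr π η (x + w))]
      · rw [h]; linarith [Real.exp_pos (2 * lr π η (x + w))]
    refine (lintegral_mono h1).trans ?_
    rw [lintegral_add_left, two_mul, ENNReal.ofReal_add (Real.exp_pos _).le (Real.exp_pos _).le]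
    · exact add_le_add (mom hπ hη hw) (mom hη hπ hw)
    · apply Measurable.ennreal_ofReal; apply Continuous.measurable
      have := (lr_contDiff hπ hη).continuous
      fun_prop
  have hi : Integrable (fun x => Real.exp (2 * |r x|)) (stdGaussian (EuclideanSpace ℝ I)) := by
    refine ⟨by apply Continuous.aestronglyMeasurable; fun_prop, ?_⟩
    rw [hasFiniteIntegral_iff_ofReal (Filter.Eventually.of_forall fun x => (Real.exp_pos _).le)]
    exact hmom.trans_lt ENNReal.ofReal_lt_top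
  have hB : ∫ x, Real.exp (2 * |r x|) ∂(stdGaussian (EuclideanSpace ℝ I)) ≤
      2 * Real.exp (13 * M ^ 2) := by
    rw [← ofReal_integral_eq_lintegral_ofReal hi (Filter.Eventually.of_forall fun x =>
      (Real.exp_pos _).le)] at hmom
    exact (ENNReal.ofReal_le_ofReal_iff (by positivity)).mp hmom
  obtain ⟨c1, c2, c3⟩ := core r hrC hM hrD hi hB
  have e1 : ∀ x, lr π η (x + w) = r x := fun x => by rw [hr]
  simp_rw [e1]
  rw [← ofReal_integral_eq_lintegral_ofReal c1 (Filter.Eventually.of_forall fun x => sq_nonneg _),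
    ← ofReal_integral_eq_lintegral_ofReal c2 (Filter.Eventually.of_forall fun x => hp_nonneg _),
    ← ENNReal.ofReal_mul (Cst_nonneg M)]
  exact ENNReal.ofReal_le_ofReal c3

end ratio

section mixture

open Pool.Agent.H988R2

variable {d : ℕ} {π η : Measure (EuclideanSpace ℝ (Fin d))} [IsProbabilityMeasure π]
  [IsProbabilityMeasure η] {M : ℝ}

lemma const_eq (d : ℕ) : (2 * Real.pi) ^ (-(d : ℝ) / 2) = ((Real.sqrt (2 * Real.pi))⁻¹) ^ d := by
  have h : (0:ℝ) ≤ 2 * Real.pi := by positivity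
  rw [Real.sqrt_eq_rpow, ← Real.rpow_neg h, ← Real.rpow_natCast, ← Real.rpow_mul h]
  congr 1; ring

omit [IsProbabilityMeasure π] in
lemma mix_gdens (x : EuclideanSpace ℝ (Fin d)) :
    mixDensity π x = ∫ z, gdens (Fin d) (x - z) ∂π := by
  unfold mixDensity gdens
  rw [const_eq, Fintype.card_fin]

omit [IsProbabilityMeasure π] in
lemma mix_eq (x : EuclideanSpace ℝ (Fin d)) : mixDensity π x = gdens (Fin d) x * Lf π x := by
  rw [mix_gdens]
  simp_rw [gdens_sub]
  rw [integral_const_mul]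
  rfl

lemma mix_pos (hπ : ∀ᵐ z ∂π, ‖z‖ ≤ M) (x : EuclideanSpace ℝ (Fin d)) : 0 < mixDensity π x := by
  rw [mix_eq]; exact mul_pos (gdens_pos _ _) (Lf_pos hπ x)

lemma mix_cont (hπ : ∀ᵐ z ∂π, ‖z‖ ≤ M) : Continuous (mixDensity π) := by
  have : mixDensity π = fun x => gdens (Fin d) x * Lf π x := by funext x; exact mix_eq x
  rw [this]
  exact (continuous_gdens _).mul (Lf_contDiff hπ).continuous

lemma gdens_int (hπ : ∀ᵐ z ∂π, ‖z‖ ≤ M) (x : EuclideanSpace ℝ (Fin d)) :
    Integrable (fun z => gdens (Fin d) (x - z)) π := by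
  simp_rw [gdens_sub]
  exact (exp_int hπ x).const_mul _

/-- integrals against the mixture density -/
lemma mix_lintegral (hη : ∀ᵐ z ∂η, ‖z‖ ≤ M) (F : EuclideanSpace ℝ (Fin d) → ℝ≥0∞)
    (hF : Measurable F) :
    ∫⁻ x, ENNReal.ofReal (mixDensity η x) * F x =
      ∫⁻ w, (∫⁻ x, F (x + w) ∂(stdGaussian (EuclideanSpace ℝ (Fin d)))) ∂η := by
  have hg : Measurable (fun x => ENNReal.ofReal (gdens (Fin d) x)) :=
    (continuous_gdens _).measurable.ennreal_ofReal
  have h1 : ∀ x, ENNReal.ofReal (mixDensity η x) * F x =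
      ∫⁻ w, ENNReal.ofReal (gdens (Fin d) (x - w)) * F x ∂η := by
    intro x
    rw [mix_gdens, ofReal_integral_eq_lintegral_ofReal (gdens_int hη x)
      (Filter.Eventually.of_forall fun z => (gdens_pos _ _).le), lintegral_mul_const]
    exact hg.comp (measurable_const.sub measurable_id)
  simp_rw [h1]
  rw [lintegral_lintegral_swap]
  · apply lintegral_congr
    intro w
    have h2 := lintegral_sub_right_eq_self (μ := (volume : Measure (EuclideanSpace ℝ (Fin d))))
      (fun y => ENNReal.ofReal (gdens (Fin d) y) * F (y + w)) w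
    simp only [sub_add_cancel] at h2
    have hFw : Measurable (fun x => F (x + w)) := hF.comp (measurable_id.add_const w)
    rw [h2, stdGaussian_eq, lintegral_withDensity_eq_lintegral_mul _ hg hFw]
    rfl
  · apply Measurable.aemeasurable
    show Measurable (fun p : EuclideanSpace ℝ (Fin d) × EuclideanSpace ℝ (Fin d) =>
      ENNReal.ofReal (gdens (Fin d) (p.1 - p.2)) * F p.1)
    exact (hg.comp (measurable_fst.sub measurable_snd)).mul (hF.comp measurable_fst)

lemma mix_one (hη : ∀ᵐ z ∂η, ‖z‖ ≤ M) : ∫⁻ x, ENNReal.ofReal (mixDensity η x) = 1 := by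
  have h := mix_lintegral hη (fun _ => 1) measurable_const
  simpa using h

lemma mix_integrable (hη : ∀ᵐ z ∂η, ‖z‖ ≤ M) : Integrable (mixDensity η) := by
  refine ⟨(mix_cont hη).aestronglyMeasurable, ?_⟩
  rw [hasFiniteIntegral_iff_ofReal (Filter.Eventually.of_forall fun x => (mix_pos hη x).le),
    mix_one hη]
  exact ENNReal.one_lt_top

lemma mix_integral (hη : ∀ᵐ z ∂η, ‖z‖ ≤ M) : ∫ x, mixDensity η x = 1 := by
  rw [integral_eq_lintegral_of_nonneg_ae (Filter.Eventually.of_forall fun x => (mix_pos hη x).le)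
    (mix_cont hη).aestronglyMeasurable, mix_one hη]
  rfl

lemma ratio_eq (hπ : ∀ᵐ z ∂π, ‖z‖ ≤ M) (hη : ∀ᵐ z ∂η, ‖z‖ ≤ M) (x : EuclideanSpace ℝ (Fin d)) :
    mixDensity π x = mixDensity η x * Real.exp (lr π η x) := by
  rw [mix_eq, mix_eq, exp_lr hπ hη]
  have := (Lf_pos hη x).ne'
  field_simp

lemma chi_pt (hπ : ∀ᵐ z ∂π, ‖z‖ ≤ M) (hη : ∀ᵐ z ∂η, ‖z‖ ≤ M) (x : EuclideanSpace ℝ (Fin d)) :
    (mixDensity π x - mixDensity η x) ^ 2 / mixDensity η x =
      mixDensity η x * (Real.exp (lr π η x) - 1) ^ 2 := by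
  rw [ratio_eq hπ hη]
  have := (mix_pos hη x).ne'
  field_simp

lemma hel_pt (hπ : ∀ᵐ z ∂π, ‖z‖ ≤ M) (hη : ∀ᵐ z ∂η, ‖z‖ ≤ M) (x : EuclideanSpace ℝ (Fin d)) :
    (Real.sqrt (mixDensity π x) - Real.sqrt (mixDensity η x)) ^ 2 =
      mixDensity η x * hp (lr π η x) := by
  have h1 : Real.sqrt (mixDensity π x) = Real.sqrt (mixDensity η x) * Real.exp (lr π η x / 2) := by
    rw [ratio_eq hπ hη, Real.sqrt_mul (mix_pos hη x).le]
    congr 1
    rw [Real.sqrt_eq_iff_mul_self_eq (Real.exp_pos _).le (Real.exp_pos _).le, ← Real.exp_add]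
    congr 1; ring
  rw [h1]
  unfold hp
  have h2 := Real.sq_sqrt (mix_pos hη x).le
  calc (Real.sqrt (mixDensity η x) * Real.exp (lr π η x / 2) - Real.sqrt (mixDensity η x)) ^ 2
      = Real.sqrt (mixDensity η x) ^ 2 * (Real.exp (lr π η x / 2) - 1) ^ 2 := by ring
    _ = _ := by rw [h2]

end mixture

/-- Dimension-free comparison: for every `M` there is a constant `C`, depending only on `M`, such
that for all dimensions and all mixing distributions supported in the ball of radius `M`, both the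
chi-squared divergence and the KL divergence of the Gaussian mixtures are at most `C` times their
squared Hellinger distance. -/
theorem result (M : ℝ) : ∃ C : ℝ, ∀ (d : ℕ) (π η : Measure (EuclideanSpace ℝ (Fin d)))
    [IsProbabilityMeasure π] [IsProbabilityMeasure η],
    π (Metric.closedBall 0 M)ᶜ = 0 → η (Metric.closedBall 0 M)ᶜ = 0 →
      (Integrable (fun x => (mixDensity π x - mixDensity η x) ^ 2 / mixDensity η x) ∧
        chiSq (mixDensity π) (mixDensity η) ≤ C * hellingerSq (mixDensity π) (mixDensity η)) ∧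
      (Integrable (fun x => mixDensity π x * Real.log (mixDensity π x / mixDensity η x)) ∧
        KL (mixDensity π) (mixDensity η) ≤ C * hellingerSq (mixDensity π) (mixDensity η)) ∧
      Integrable (fun x => (Real.sqrt (mixDensity π x) - Real.sqrt (mixDensity η x)) ^ 2) := by
  refine ⟨Cst M, fun d π η _ _ hπ' hη' => ?_⟩
  have hπ : ∀ᵐ z ∂π, ‖z‖ ≤ M := by
    rw [ae_iff]
    refine measure_mono_null (fun z hz => ?_) hπ'
    simpa using hz
  have hη : ∀ᵐ z ∂η, ‖z‖ ≤ M := by
    rw [ae_iff]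
    refine measure_mono_null (fun z hz => ?_) hη'
    simpa using hz
  have hcπ := mix_cont hπ
  have hcη := mix_cont hη
  have hpπ := mix_pos hπ
  have hpη := mix_pos hη
  have hlc := (lr_contDiff hπ hη).continuous
  -- main inequality
  have hm1 : Measurable (fun x => ENNReal.ofReal ((Real.exp (lr π η x) - 1) ^ 2)) := by
    apply Measurable.ennreal_ofReal; apply Continuous.measurable; fun_prop
  have hm2 : Measurable (fun x => ENNReal.ofReal (hp (lr π η x))) := by
    apply Measurable.ennreal_ofReal; apply Continuous.measurable; unfold hp; fun_prop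
  have hchi : ∫⁻ x, ENNReal.ofReal ((mixDensity π x - mixDensity η x) ^ 2 / mixDensity η x) =
      ∫⁻ x, ENNReal.ofReal (mixDensity η x) * ENNReal.ofReal ((Real.exp (lr π η x) - 1) ^ 2) := by
    apply lintegral_congr; intro x
    rw [chi_pt hπ hη, ENNReal.ofReal_mul (hpη x).le]
  have hhel : ∫⁻ x, ENNReal.ofReal ((Real.sqrt (mixDensity π x) - Real.sqrt (mixDensity η x)) ^ 2) =
      ∫⁻ x, ENNReal.ofReal (mixDensity η x) * ENNReal.ofReal (hp (lr π η x)) := by
    apply lintegral_congr; intro x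
    rw [hel_pt hπ hη, ENNReal.ofReal_mul (hpη x).le]
  have hmain : ∫⁻ x, ENNReal.ofReal ((mixDensity π x - mixDensity η x) ^ 2 / mixDensity η x) ≤
      ENNReal.ofReal (Cst M) *
      ∫⁻ x, ENNReal.ofReal ((Real.sqrt (mixDensity π x) - Real.sqrt (mixDensity η x)) ^ 2) := by
    rw [hchi, hhel, mix_lintegral hη _ hm1, mix_lintegral hη _ hm2, ← lintegral_const_mul]
    · apply lintegral_mono_ae
      filter_upwards [hη] with w hw
      exact comp_at hπ hη hw
    · exact Measurable.lintegral_prod_right' (hm2.comp (measurable_snd.add measurable_fst))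
  -- Hellinger is finite
  have hHfin : ∫⁻ x, ENNReal.ofReal ((Real.sqrt (mixDensity π x) -
      Real.sqrt (mixDensity η x)) ^ 2) < ⊤ := by
    have h1 : ∀ x, ENNReal.ofReal ((Real.sqrt (mixDensity π x) -
        Real.sqrt (mixDensity η x)) ^ 2) ≤
        ENNReal.ofReal (mixDensity π x) + ENNReal.ofReal (mixDensity η x) := by
      intro x
      rw [← ENNReal.ofReal_add (hpπ x).le (hpη x).le]
      apply ENNReal.ofReal_le_ofReal
      have h2 := Real.sq_sqrt (hpπ x).le
      have h3 := Real.sq_sqrt (hpη x).le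
      have h4 := Real.sqrt_nonneg (mixDensity π x)
      have h5 := Real.sqrt_nonneg (mixDensity η x)
      nlinarith [mul_nonneg h4 h5]
    refine (lintegral_mono h1).trans_lt ?_
    rw [lintegral_add_left hcπ.measurable.ennreal_ofReal, mix_one hπ, mix_one hη]
    norm_num
  have iH : Integrable (fun x => (Real.sqrt (mixDensity π x) - Real.sqrt (mixDensity η x)) ^ 2) := by
    refine ⟨by apply Continuous.aestronglyMeasurable; fun_prop, ?_⟩
    rw [hasFiniteIntegral_iff_ofReal (Filter.Eventually.of_forall fun x => sq_nonneg _)]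
    exact hHfin
  have hnn : ∀ x, 0 ≤ (mixDensity π x - mixDensity η x) ^ 2 / mixDensity η x :=
    fun x => div_nonneg (sq_nonneg _) (hpη x).le
  have iC : Integrable (fun x => (mixDensity π x - mixDensity η x) ^ 2 / mixDensity η x) := by
    refine ⟨?_, ?_⟩
    · apply Continuous.aestronglyMeasurable
      exact ((hcπ.sub hcη).pow 2).div hcη (fun x => (hpη x).ne')
    · rw [hasFiniteIntegral_iff_ofReal (Filter.Eventually.of_forall hnn)]
      exact hmain.trans_lt (ENNReal.mul_lt_top ENNReal.ofReal_lt_top hHfin)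
  have hC : chiSq (mixDensity π) (mixDensity η) ≤
      Cst M * hellingerSq (mixDensity π) (mixDensity η) := by
    unfold chiSq hellingerSq
    rw [← ofReal_integral_eq_lintegral_ofReal iC (Filter.Eventually.of_forall hnn),
      ← ofReal_integral_eq_lintegral_ofReal iH (Filter.Eventually.of_forall fun x => sq_nonneg _),
      ← ENNReal.ofReal_mul (Cst_nonneg M)] at hmain
    refine (ENNReal.ofReal_le_ofReal_iff ?_).mp hmain
    exact mul_nonneg (Cst_nonneg M) (integral_nonneg fun x => sq_nonneg _)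
  have hiπ := mix_integrable hπ
  have hiη := mix_integrable hη
  -- pointwise bounds for KL
  have hup : ∀ x, mixDensity π x * Real.log (mixDensity π x / mixDensity η x) ≤
      (mixDensity π x - mixDensity η x) ^ 2 / mixDensity η x +
        (mixDensity π x - mixDensity η x) := by
    intro x
    have h1 := Real.log_le_sub_one_of_pos (div_pos (hpπ x) (hpη x))
    have h2 := mul_le_mul_of_nonneg_left h1 (hpπ x).le
    refine h2.trans (le_of_eq ?_)
    have := (hpη x).ne'
    field_simp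
    ring
  have hlo : ∀ x, mixDensity π x - mixDensity η x ≤
      mixDensity π x * Real.log (mixDensity π x / mixDensity η x) := by
    intro x
    have h1 := Real.log_le_sub_one_of_pos (div_pos (hpη x) (hpπ x))
    have h2 : Real.log (mixDensity π x / mixDensity η x) =
        -Real.log (mixDensity η x / mixDensity π x) := by
      rw [← Real.log_inv, inv_div]
    rw [h2]
    have h3 := mul_le_mul_of_nonneg_left h1 (hpπ x).le
    have h4 : mixDensity π x * (mixDensity η x / mixDensity π x - 1) =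
        mixDensity η x - mixDensity π x := by
      have := (hpπ x).ne'
      field_simp
    rw [h4] at h3
    linarith
  have iD : Integrable (fun x => (mixDensity π x - mixDensity η x) ^ 2 / mixDensity η x +
        (mixDensity π x - mixDensity η x)) := iC.add (hiπ.sub hiη)
  have iK : Integrable (fun x => mixDensity π x * Real.log (mixDensity π x / mixDensity η x)) := by
    have i2 : Integrable (fun x => |(mixDensity π x - mixDensity η x) ^ 2 / mixDensity η x +
        (mixDensity π x - mixDensity η x)| + |mixDensity π x - mixDensity η x|) :=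
      iD.abs.add (hiπ.sub hiη).abs
    refine i2.mono' ?_ (Filter.Eventually.of_forall fun x => ?_)
    · apply Continuous.aestronglyMeasurable
      exact hcπ.mul ((hcπ.div hcη (fun x => (hpη x).ne')).log
        (fun x => (div_pos (hpπ x) (hpη x)).ne'))
    · rw [Real.norm_eq_abs, abs_le]
      constructor
      · have h1 := neg_abs_le (mixDensity π x - mixDensity η x)
        have h2 := abs_nonneg ((mixDensity π x - mixDensity η x) ^ 2 / mixDensity η x +
          (mixDensity π x - mixDensity η x))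
        have h3 := hlo x
        linarith
      · have h1 := le_abs_self ((mixDensity π x - mixDensity η x) ^ 2 / mixDensity η x +
          (mixDensity π x - mixDensity η x))
        have h2 := abs_nonneg (mixDensity π x - mixDensity η x)
        have h3 := hup x
        linarith
  have hK : KL (mixDensity π) (mixDensity η) ≤
      Cst M * hellingerSq (mixDensity π) (mixDensity η) := by
    refine le_trans ?_ hC
    unfold KL chiSq
    have h1 := integral_mono iK iD hup
    have i3 : Integrable (fun x => mixDensity π x - mixDensity η x) := hiπ.sub hiη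
    rw [integral_add iC i3, integral_sub hiπ hiη, mix_integral hπ, mix_integral hη] at h1
    simpa using h1
  exact ⟨⟨iC, hC⟩, ⟨iK, hK⟩, iH⟩

end Pool.Agent.Results.MP_ba1a3e_pr.DimensionFree
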